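import Pool.Agent.Lib.MP_49888f_co.ES2.Cone

/-!
# MP_49888f_co : Q1 for the convex hull of an elliptical arc and a point of its axis

Outline. In the frame of the ellipse the disc is the convex hull `C` of the part `y ≤ d` of the unit disc and a point
`(0, a)`. If `a ≤ d` it is the segment itself; if `a d > 1` the two tangents from the point touch the circle at height
`1/a < d`, and `d` can be replaced by `1/a`. Otherwise, with `d = -cos b`, the area is at most `b + a sin b`, and `C`
contains a convex hexagon with two parallel and equal opposite sides (such a hexagon and its mirror images in points tile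
the plane) of area at least `√27/(2π)` times this: two families of hexagons for `b ≤ 2π/3`, five for `b ≥ 2π/3`. Equality
occurs for the half-disc, for the sector of 120 degrees and for the full disc.
-/

set_option autoImplicit false

namespace Pool.Agent.Results.MP_49888f_co.ArcAndPoint

open MeasureTheory Set Pool.Agent.MP49888f.CV Pool.Agent.MP49888f.ES Pool.Agent.MP49888f.ES2

private theorem image_cone (c u w : E2) (d a : ℝ) :
    (fun p : ℝ × ℝ => c + fr u w p) '' Cone d a =
      convexHull ℝ ({z : E2 | ∃ x y : ℝ, x ^ 2 + y ^ 2 ≤ 1 ∧ y ≤ d ∧ z = c + x • u + y • w} ∪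
        {c + a • w}) := by
  let L : (ℝ × ℝ) →ₗ[ℝ] E2 :=
    { toFun := fr u w
      map_add' := fr_add u w
      map_smul' := fun m p => by
        show fr u w (m • p) = m • fr u w p
        exact fr_smul u w m p }
  let F : (ℝ × ℝ) →ᵃ[ℝ] E2 := L.toAffineMap + AffineMap.const ℝ (ℝ × ℝ) c
  have hF : ∀ p, F p = c + fr u w p := by
    intro p
    show fr u w p + c = c + fr u w p
    rw [add_comm]
  have h1 : (fun p : ℝ × ℝ => c + fr u w p) = F := by
    funext p
    exact (hF p).symm
  rw [h1]
  unfold Cone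
  rw [AffineMap.image_convexHull, image_union, image_singleton]
  congr 2
  · ext z
    constructor
    · rintro ⟨⟨x, y⟩, ⟨h2, h3⟩, rfl⟩
      refine ⟨x, y, h2, h3, ?_⟩
      rw [hF]
      show c + (x • u + y • w) = c + x • u + y • w
      rw [add_assoc]
    · rintro ⟨x, y, h2, h3, rfl⟩
      refine ⟨(x, y), ⟨h2, h3⟩, ?_⟩
      rw [hF]
      show c + (x • u + y • w) = c + x • u + y • w
      rw [add_assoc]
  · rw [hF]
    show {c + ((0 : ℝ) • u + a • w)} = ({c + a • w} : Set E2)
    rw [zero_smul, zero_add]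

theorem result (c u w : E2) (huw : cr u w ≠ 0) (d a : ℝ) (h0 : -1 < d) (h1 : d ≤ 1) (ha : -1 ≤ a) :
    CovLE (convexHull ℝ ({z : E2 | ∃ x y : ℝ, x ^ 2 + y ^ 2 ≤ 1 ∧ y ≤ d ∧ z = c + x • u + y • w} ∪
      {c + a • w})) (2 * Real.pi / √27) := by
  rcases huw.lt_or_gt with hlt | hgt
  · have hE : {z : E2 | ∃ x y : ℝ, x ^ 2 + y ^ 2 ≤ 1 ∧ y ≤ d ∧ z = c + x • u + y • w}
        = {z : E2 | ∃ x y : ℝ, x ^ 2 + y ^ 2 ≤ 1 ∧ y ≤ d ∧ z = c + x • (-u) + y • w} := by
      ext z
      constructor
      · rintro ⟨x, y, h2, h3, rfl⟩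
        exact ⟨-x, y, by rwa [neg_sq], h3, by rw [neg_smul_neg]⟩
      · rintro ⟨x, y, h2, h3, rfl⟩
        exact ⟨-x, y, by rwa [neg_sq], h3, by rw [smul_neg, neg_smul]⟩
    rw [hE, ← image_cone c (-u) w d a]
    exact cone_all c (-u) w (by rw [cr_neg_left]; linarith) d a h0 h1 ha
  · rw [← image_cone c u w d a]
    exact cone_all c u w hgt d a h0 h1 ha

end Pool.Agent.Results.MP_49888f_co.ArcAndPoint
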