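import Pool.Agent.Lib.MP_49888f_co.HX.Main
import Pool.Agent.Lib.MP_49888f_co.HX.Scale

/-!
# MP_49888f_co : Q1 for convex hexagons, for polygons with vertices on three parallel lines, and for discs close to them

`CovLE C θ` is the conclusion of the frozen statement `S08567` with `θ` in place of `2π/√27 ≈ 1.2092`; here
`θ = 6/5 · |C|/|P|`, where `P ⊆ C` is a polygon of the class (`C = P` allowed).

Outline. Let `P` be the convex hull of `V`, let the vertices other than `x` (highest) and `y` (lowest) lie on three horizontal
lines, let `L` be the longest horizontal chord, `W` the height, `h(l)` the vertical distance of the two extreme horizontal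
chords of length `l`. `P` contains, for every `l`, two hexagons with a pair of equal parallel opposite sides (they tile the
plane), of areas `l (W + h(l)) / 2` and `h(l) (L + l) / 2` (W. Kuperberg). `|P| = ∫ h`, and `h` is concave and piecewise linear
with at most two interior break points, `h(L) = 0` (or the last break point is at `L`). For such `h` one of the two areas is at
least `5/6 ∫ h` for some `l` (`HX.shape`, `HX.coreII`); this is sharp for this family of functions. For `|V| ≤ 6` the lines are found from
two chords `p q`, `r s` with the largest cross product.
-/

set_option autoImplicit false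

namespace Pool.Agent.Results.MP_49888f_co.Hexagons

open MeasureTheory Set Pool.Agent.MP49888f.CV Pool.Agent.MP49888f.HX

/-- For some nonzero linear functional `g` the set `V` has a point `x` of greatest and a point `y` of least value of `g`,
and `g` takes at most three values on the other points of `V`. -/
def ThreeLines (V : Finset E2) : Prop :=
  ∃ g : E2 →ₗ[ℝ] ℝ, g ≠ 0 ∧ ∃ x ∈ V, ∃ y ∈ V, ∃ t : Fin 3 → ℝ,
    ∀ z ∈ V, g y ≤ g z ∧ g z ≤ g x ∧ (z = x ∨ z = y ∨ ∃ i, g z = t i)

/-- Let the convex disc `C` contain `P = conv V`, where `V` has at most six points, or all points of `V` except two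
extreme ones lie on three parallel lines. Then the covering density of `C` is at most `6/5 · |C|/|P|`. -/
theorem result (C : Set E2) (hC : IsCompact C) (_hconv : Convex ℝ C) (V : Finset E2)
    (hVC : convexHull ℝ (V : Set E2) ⊆ C)
    (hint : (interior (convexHull ℝ (V : Set E2))).Nonempty)
    (hV : V.card ≤ 6 ∨ ThreeLines V) :
    CovLE C (6 / 5 * (volume C).toReal / (volume (convexHull ℝ (V : Set E2))).toReal) := by
  have hpos : 0 < volume (convexHull ℝ (V : Set E2)) :=
    lt_of_lt_of_le (isOpen_interior.measure_pos volume hint) (measure_mono interior_subset)
  exact scale _ C hVC hpos hC.measure_lt_top.ne (by norm_num) (main V hint hV)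

end Pool.Agent.Results.MP_49888f_co.Hexagons
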