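import Pool.Agent.Lib.MP_49888f_co.CV.Asm

/-!
# MP_49888f_co : Q1 for convex discs with a large difference body

Notation: `cr u v = u₀ v₁ - u₁ v₀` (`Pool/Agent/Lib/MP_49888f_co/CV/Defs.lean`); the conclusion is literally the
conclusion of the frozen statement `S08567`.

Outline. Let `z, d` be in the difference body `C - C`. In the direction `z` let `L` be the longest chord of `C`,
`W` the width and `w(l)` the distance of the two chords of length `l`; `w` is concave, its integral over
`[0, L]` is the area of `C`, and `L W ≥ |z × d|`. For `0 ≤ t ≤ x ≤ 1` the area is at most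
`t L W + (x-t) L w((t+x)L/2) + (1-x) L w((1+x)L/2)` (Hermite-Hadamard). The hexagon spanned by the longest chord and the
two chords of length `(t+x)L/2`, and the hexagon spanned by the two chords of length `(1+x)L/2` and the two
extreme points of `C`, have two parallel equal opposite sides, so translates and point reflections of them tile
the plane. With `t = 3/32`, `x = 21/32` one of the two has area at least `√27/(2π) |C|` as soon as
`|z × d| ≥ 1.4528 |C|`. By an averaging argument of Sas some `z, d` satisfy `z × d ≥ |C - C|/π`.
-/

set_option autoImplicit false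

namespace Pool.Agent.Results.MP_49888f_co.LargeDifferenceBody

open MeasureTheory Set Pool.Agent.MP49888f.CV
open scoped Pointwise

/-- Let `C` be a convex disc such that `|C - C| ≥ 4.565 |C|`, or such that `C` contains points `p, q, r, s` with
`|(p-q) × (r-s)| ≥ 1.4528 |C|` (for instance the vertices of a convex quadrilateral `p r q s` of area at least
`0.7264 |C|`). Then the covering density of `C` is at most `2π/√27`. -/
theorem result :
    ∀ C : Set (EuclideanSpace ℝ (Fin 2)), Convex ℝ C → IsCompact C → (interior C).Nonempty →
      (4.565 * (volume C).toReal ≤ (volume (C - C)).toReal ∨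
        ∃ p ∈ C, ∃ q ∈ C, ∃ r ∈ C, ∃ s ∈ C, 1.4528 * (volume C).toReal ≤ |cr (p - q) (r - s)|) →
      ∀ ε : ℝ, 0 < ε →
        ∃ f : ℕ → (EuclideanSpace ℝ (Fin 2) ≃ᵢ EuclideanSpace ℝ (Fin 2)),
          (⋃ i, (f i) '' C) = Set.univ ∧
          ∀ R : ℝ, ∃ r : ℝ, R ≤ r ∧
            (∑' i : ℕ, Set.indicator
                {j : ℕ | (f j) '' C ⊆ Metric.ball (0 : EuclideanSpace ℝ (Fin 2)) r}
                (fun _ : ℕ => MeasureTheory.volume C) i)
              ≤ ENNReal.ofReal (2 * Real.pi / Real.sqrt 27 + ε) *
                  MeasureTheory.volume (Metric.ball (0 : EuclideanSpace ℝ (Fin 2)) r) := by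
  intro C hC hk hint hyp
  have hpos : 0 < volume C :=
    lt_of_lt_of_le (isOpen_interior.measure_pos volume hint) (measure_mono interior_subset)
  have hfin : volume C ≠ ⊤ := hk.measure_lt_top.ne
  have hK : 0 < (volume C).toReal := ENNReal.toReal_pos hpos.ne' hfin
  have hquad : ∀ z d : E2, z ∈ C - C → d ∈ C - C → 1.4528 * (volume C).toReal ≤ |cr z d| →
      CovLE C (2 * Real.pi / Real.sqrt 27) := by
    intro z d hz hd h
    refine (general C hC hk hpos z d hz hd (3 / 32) (21 / 32) (by norm_num) (by norm_num)
      (by norm_num)).mono ?_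
    exact numeric hK h
  have hcov : CovLE C (2 * Real.pi / Real.sqrt 27) := by
    rcases hyp with h | ⟨p, hp, q, hq, r, hr, s, hs, h⟩
    · have hCne : C.Nonempty := hint.mono interior_subset
      have hDc : Convex ℝ (C - C) := hC.sub hC
      have hDk : IsCompact (C - C) := by
        rw [sub_eq_add_neg]; exact hk.add hk.neg
      have hDs : ∀ p ∈ C - C, -p ∈ C - C := by
        intro p hp
        obtain ⟨a, ha, b, hb, rfl⟩ := Set.mem_sub.mp hp
        exact Set.mem_sub.mpr ⟨b, hb, a, ha, by abel⟩
      have hDne : (C - C).Nonempty := hCne.sub hCne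
      obtain ⟨z, hz, d, hd, hsas⟩ := sas (C - C) hDc hDk hDs hDne
      have hpi := Real.pi_pos
      have hR : (volume (C - C)).toReal / Real.pi ≤ |cr z d| := by
        rw [div_le_iff₀ hpi]
        have := le_abs_self (cr z d)
        nlinarith
      refine hquad z d hz hd ?_
      have hpi2 : Real.pi < 3.1416 := by
        have := Real.pi_lt_d4; linarith
      have : 1.4528 * (volume C).toReal ≤ (volume (C - C)).toReal / Real.pi := by
        rw [le_div_iff₀ hpi]
        nlinarith
      linarith
    · exact hquad (p - q) (r - s) (Set.sub_mem_sub hp hq) (Set.sub_mem_sub hr hs) h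
  exact hcov

end Pool.Agent.Results.MP_49888f_co.LargeDifferenceBody
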