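import Pool.Agent.Lib.MP_49888f_co.CV.Asm

/-!
# MP_49888f_co : Q1 for discs close to parallelograms and for discs with two long parallel edges

Outline. Let `L` be the longest chord of `C` in the direction `e`, `W` the width transversal to it, `h(l)` the distance of
the two extreme chords of length `l`, `m` the largest area of a hexagon `l (W + h(l)) / 2` or `h(l) (L + l) / 2` in `C`
(W. Kuperberg; such hexagons tile the plane). If `|C| ≥ 0.904 L W`, two such hexagons, for `l = 0.6475 L` and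
`l = 0.9075 L`, give `|C| ≤ 1.209 m`, since `h` is concave and at most `W`. If `|C| < 0.904 L W`, a hexagon of area at
least `3/4 L W` is enough.
-/

set_option autoImplicit false

namespace Pool.Agent.Results.MP_49888f_co.NearParallelogram

open MeasureTheory Set Pool.Agent.MP49888f.CV

private theorem len_le (S : Set (ℝ × ℝ)) (hc : Convex ℝ S) (hk : IsCompact S) (l a b : ℝ)
    (ha : a ∈ Yset S l) (hb : b ∈ Yset S l) : b - a ≤ (volume (Yset S l)).toReal := by
  have hsub : Icc a b ⊆ Yset S l := (Yset_convex S hc l).ordConnected.out ha hb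
  have hle := measure_mono (μ := volume) hsub
  rw [Real.volume_Icc] at hle
  exact (ENNReal.ofReal_le_iff_le_toReal (Yset_isCompact S hk l).measure_lt_top.ne).mp hle

private theorem big (C : Set E2) (hC : Convex ℝ C) (hk : IsCompact C) (hpos : 0 < volume C)
    (u w : E2) (huw : cr u w = 1) (L : ℝ) (hL : 0 < L)
    (hneL : (Yset (fr u w ⁻¹' C) L).Nonempty)
    (hmax : ∀ l, L < l → Yset (fr u w ⁻¹' C) l = ∅)
    (hW : 0 < (volume (Yset (fr u w ⁻¹' C) 0)).toReal)
    (hb : (volume C).toReal ≤ 48 / 100 * L * (volume (Yset (fr u w ⁻¹' C) 0)).toReal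
      + (815 / 1000 - 48 / 100) * L *
        (volume (Yset (fr u w ⁻¹' C) ((48 / 100 + 815 / 1000) / 2 * L))).toReal
      + (1 - 815 / 1000) * L * (volume (Yset (fr u w ⁻¹' C) ((1 + 815 / 1000) / 2 * L))).toReal)
    (h : 904 / 1000 * (L * (volume (Yset (fr u w ⁻¹' C) 0)).toReal) ≤ (volume C).toReal) :
    CovLE C (1209 / 1000) := by
  have hcS : Convex ℝ (fr u w ⁻¹' C) := convex_fr_preimage u w C hC
  have hK : 0 < (volume C).toReal := ENNReal.toReal_pos hpos.ne' hk.measure_lt_top.ne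
  obtain ⟨W, hWd⟩ : ∃ W, W = (volume (Yset (fr u w ⁻¹' C) 0)).toReal := ⟨_, rfl⟩
  obtain ⟨l1, hl1⟩ : ∃ l, l = (48 / 100 + 815 / 1000) / 2 * L := ⟨_, rfl⟩
  obtain ⟨l2, hl2⟩ : ∃ l, l = (1 + 815 / 1000) / 2 * L := ⟨_, rfl⟩
  rw [← hl1, ← hl2, ← hWd] at hb
  rw [← hWd] at h
  obtain ⟨w1, hw1⟩ : ∃ v, v = (volume (Yset (fr u w ⁻¹' C) l1)).toReal := ⟨_, rfl⟩
  obtain ⟨w2, hw2⟩ : ∃ v, v = (volume (Yset (fr u w ⁻¹' C) l2)).toReal := ⟨_, rfl⟩
  rw [← hw1, ← hw2] at hb
  have hw10 : 0 ≤ w1 := hw1 ▸ ENNReal.toReal_nonneg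
  have hw20 : 0 ≤ w2 := hw2 ▸ ENNReal.toReal_nonneg
  have hWp : 0 < W := hWd ▸ hW
  have hl10 : 0 < l1 := by rw [hl1]; linarith
  have hl20 : 0 < l2 := by rw [hl2]; linarith
  have hl1L : l1 ≤ L := by rw [hl1]; linarith
  have hl2L : l2 ≤ L := by rw [hl2]; linarith
  by_cases c1 : 2 * (volume C).toReal ≤ 1209 / 1000 * ((l1 + L) * w1)
  · have hp : 0 < w1 := by
      rcases hw10.lt_or_eq with h' | h'
      · exact h'
      · rw [← h'] at c1
        linarith
    have := hexPsi C hC hk u w huw l1 L hl10.le hl1L hneL hmax (hw1 ▸ hp) hL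
    rw [← hw1] at this
    refine this.mono ?_
    rw [div_le_iff₀ (mul_pos (by linarith) hp)]
    exact c1
  by_cases c2 : 2 * (volume C).toReal ≤ 1209 / 1000 * (l2 * (W + w2))
  · have := hexPhi C hC hk u w huw l2 hl20 (hneL.mono (Yset_anti _ hcS hl20.le hl2L)) hW
    rw [← hw2, ← hWd] at this
    refine this.mono ?_
    rw [div_le_iff₀ (mul_pos hl20 (by linarith))]
    exact c2
  exfalso
  push Not at c1 c2
  rw [hl1] at c1
  rw [hl2] at c2
  nlinarith [c1, c2, hb, h, hK]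

private theorem frame (C : Set E2) (hC : Convex ℝ C) (hk : IsCompact C) (hpos : 0 < volume C)
    (u w : E2) (huw : cr u w = 1) (Λ H : ℝ)
    (hΛ : ∀ p ∈ C, ∀ ν : ℝ, p + ν • u ∈ C → ν ≤ Λ) (hH : ∀ p ∈ C, ∀ q ∈ C, cr u (p - q) ≤ H)
    (h : 904 / 1000 * (Λ * H) ≤ (volume C).toReal ∨
      ∃ a ∈ C, ∃ b ∈ C, a + u ∈ C ∧ b + u ∈ C ∧
        (3 * (Λ * H) ≤ 2 * ((1 + Λ) * cr u (b - a)) ∨ 3 * (Λ * H) ≤ 2 * (cr u (b - a) + H))) :
    CovLE C (1209 / 1000) := by
  have hcS : Convex ℝ (fr u w ⁻¹' C) := convex_fr_preimage u w C hC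
  have hkS : IsCompact (fr u w ⁻¹' C) := isCompact_fr_preimage u w huw C hk
  have hvol : volume (fr u w ⁻¹' C) = volume C := volume_fr_preimage u w huw C
  have hK : 0 < (volume C).toReal := ENNReal.toReal_pos hpos.ne' hk.measure_lt_top.ne
  obtain ⟨L, hL, hneL, hmax, hW, hb⟩ := core (fr u w ⁻¹' C) hcS hkS (by rw [hvol]; exact hpos)
  have hb' := hb (48 / 100) (815 / 1000) (by norm_num) (by norm_num) (by norm_num)
  rw [hvol] at hb'
  have hcrfr : ∀ p : ℝ × ℝ, cr u (fr u w p) = p.2 := by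
    intro p
    unfold fr
    rw [cr_add_right, cr_smul_right, cr_smul_right, cr_self, huw]
    ring
  have hfadd : ∀ x y l : ℝ, fr u w (x + l, y) = fr u w (x, y) + l • u := by
    intro x y l
    unfold fr
    show (x + l) • u + y • w = x • u + y • w + l • u
    rw [add_smul]
    abel
  have hLΛ : L ≤ Λ := by
    obtain ⟨y, x, h1, h2⟩ := hneL
    have h1' : fr u w (x, y) ∈ C := h1
    have h2' : fr u w (x + L, y) ∈ C := h2
    rw [hfadd] at h2'
    exact hΛ _ h1' L h2'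
  obtain ⟨W, hWd⟩ : ∃ W, W = (volume (Yset (fr u w ⁻¹' C) 0)).toReal := ⟨_, rfl⟩
  have hWp : 0 < W := hWd ▸ hW
  have hne0 : (Yset (fr u w ⁻¹' C) 0).Nonempty := hneL.mono (Yset_anti _ hcS le_rfl hL.le)
  have hWH : W ≤ H := by
    have eY := compact_convex_eq_Icc _ (Yset_isCompact _ hkS 0) (Yset_convex _ hcS 0) hne0
    obtain ⟨y1, hy1⟩ : ∃ y, y = sInf (Yset (fr u w ⁻¹' C) 0) := ⟨_, rfl⟩
    obtain ⟨y2, hy2⟩ : ∃ y, y = sSup (Yset (fr u w ⁻¹' C) 0) := ⟨_, rfl⟩
    rw [← hy1, ← hy2] at eY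
    have h12 : y1 ≤ y2 := by
      rw [eY] at hne0
      exact Set.nonempty_Icc.mp hne0
    have m1 : y1 ∈ Yset (fr u w ⁻¹' C) 0 := by rw [eY]; exact ⟨le_rfl, h12⟩
    have m2 : y2 ∈ Yset (fr u w ⁻¹' C) 0 := by rw [eY]; exact ⟨h12, le_rfl⟩
    obtain ⟨x1, k1, -⟩ := m1
    obtain ⟨x2, k2, -⟩ := m2
    have := hH _ k2 _ k1
    rw [cr_sub_right, hcrfr, hcrfr] at this
    rw [hWd, eY, Real.volume_Icc, ENNReal.toReal_ofReal (sub_nonneg.mpr h12)]
    exact this
  have hbig := big C hC hk hpos u w huw L hL hneL hmax hW hb'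
  rw [← hWd] at hbig
  have hΛ0 : 0 < Λ := hL.trans_le hLΛ
  rcases h with h | ⟨a, ha, b, hbC, hau, hbu, h⟩
  · refine hbig (le_trans ?_ h)
    exact mul_le_mul_of_nonneg_left (mul_le_mul hLΛ hWH hWp.le hΛ0.le) (by norm_num)
  by_cases hs : 904 / 1000 * (L * W) ≤ (volume C).toReal
  · exact hbig hs
  push Not at hs
  obtain ⟨δ, hδ⟩ : ∃ δ, δ = cr u (b - a) := ⟨_, rfl⟩
  have hY : ∀ z ∈ C, z + u ∈ C → cr u z ∈ Yset (fr u w ⁻¹' C) 1 := by
    intro z hz hzu
    refine ⟨cr z w, ?_, ?_⟩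
    · show fr u w (cr z w, cr u z) ∈ C
      rw [fr_coord u w huw]
      exact hz
    · show fr u w (cr z w + 1, cr u z) ∈ C
      rw [hfadd, fr_coord u w huw, one_smul]
      exact hzu
  have hYa := hY a ha hau
  have hYb := hY b hbC hbu
  have hL1 : 1 ≤ L := by
    by_contra hcon
    rw [hmax 1 (not_le.mp hcon)] at hYa
    exact hYa
  obtain ⟨w1, hw1⟩ : ∃ v, v = (volume (Yset (fr u w ⁻¹' C) 1)).toReal := ⟨_, rfl⟩
  have hδw : δ ≤ w1 := by
    have := len_le _ hcS hkS 1 _ _ hYa hYb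
    rw [hw1, hδ, cr_sub_right]
    exact this
  have hLW : 0 < L * W := mul_pos hL hWp
  rw [← hδ] at h
  rcases h with h | h
  · have key : 3 * (L * W) ≤ 2 * ((1 + L) * w1) := by
      have k1 : (1 + Λ) * (3 * (L * W)) ≤ (1 + Λ) * (2 * ((1 + L) * w1)) := by
        have j1 : L * W ≤ L * H := mul_le_mul_of_nonneg_left hWH hL.le
        have hH0 : 0 ≤ H := hWp.le.trans hWH
        have j2 : (1 + Λ) * (L * H) ≤ (1 + L) * (Λ * H) := by
          have := mul_le_mul_of_nonneg_right hLΛ hH0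
          nlinarith
        have j3 : (1 + L) * (3 * (Λ * H)) ≤ (1 + L) * (2 * ((1 + Λ) * δ)) :=
          mul_le_mul_of_nonneg_left h (by linarith)
        have j4 : (1 + L) * (2 * ((1 + Λ) * δ)) ≤ (1 + L) * (2 * ((1 + Λ) * w1)) := by
          refine mul_le_mul_of_nonneg_left ?_ (by linarith)
          have := mul_le_mul_of_nonneg_left hδw (show 0 ≤ 1 + Λ by linarith)
          linarith
        have j5 : (1 + Λ) * (3 * (L * W)) ≤ (1 + Λ) * (3 * (L * H)) :=
          mul_le_mul_of_nonneg_left (by linarith) (by linarith)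
        nlinarith
      exact le_of_mul_le_mul_left k1 (by linarith)
    have hp : 0 < w1 := by
      by_contra hcon
      push Not at hcon
      have := mul_nonpos_of_nonneg_of_nonpos (show 0 ≤ 1 + L by linarith) hcon
      linarith
    have := hexPsi C hC hk u w huw 1 L zero_le_one hL1 hneL hmax (hw1 ▸ hp) hL
    rw [← hw1] at this
    refine this.mono ?_
    rw [div_le_iff₀ (mul_pos (by linarith) hp)]
    linarith
  · have key : 3 * (L * W) ≤ 2 * (W + w1) := by
      have j1 : (3 * L - 2) * W ≤ (3 * Λ - 2) * H :=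
        mul_le_mul (by linarith) hWH hWp.le (by linarith)
      linarith
    have := hexPhi C hC hk u w huw 1 zero_lt_one ⟨_, hYa⟩ hW
    rw [← hw1, ← hWd] at this
    refine this.mono ?_
    rw [div_le_iff₀ (by linarith)]
    linarith

/-- Let `Λ` bound the lengths of the chords of `C` in the direction `e` (in units of `e`) and let `H` bound the
width of `C` transversal to `e` (measured by `cr e`). If `|C| ≥ 0.904 Λ H`, or if `C` contains a parallelogram
`a, a + e, b, b + e` with `3 Λ H ≤ 2 (1 + Λ) δ` or `3 Λ H ≤ 2 (δ + H)`, `δ = cr e (b - a)`, then the covering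
density of `C` is at most `1.209 < 2π/√27`. -/
theorem result (C : Set E2) (hk : IsCompact C) (hC : Convex ℝ C) (hint : (interior C).Nonempty)
    (e : E2) (Λ H : ℝ) (hΛ : ∀ p ∈ C, ∀ ν : ℝ, p + ν • e ∈ C → ν ≤ Λ)
    (hH : ∀ p ∈ C, ∀ q ∈ C, cr e (p - q) ≤ H)
    (h : 904 / 1000 * (Λ * H) ≤ (volume C).toReal ∨
      ∃ a ∈ C, ∃ b ∈ C, a + e ∈ C ∧ b + e ∈ C ∧
        (3 * (Λ * H) ≤ 2 * ((1 + Λ) * cr e (b - a)) ∨ 3 * (Λ * H) ≤ 2 * (cr e (b - a) + H))) :
    CovLE C (1209 / 1000) := by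
  have hpos : 0 < volume C :=
    lt_of_lt_of_le (isOpen_interior.measure_pos volume hint) (measure_mono interior_subset)
  obtain ⟨z, hz⟩ := hint
  have hzC := interior_subset hz
  have he : e ≠ 0 := by
    rintro rfl
    have := hΛ z hzC (Λ + 1) (by rw [smul_zero, add_zero]; exact hzC)
    linarith
  have hne : e 0 ^ 2 + e 1 ^ 2 ≠ 0 := by
    intro h0
    apply he
    have h1 : e 0 = 0 := by nlinarith [sq_nonneg (e 0), sq_nonneg (e 1)]
    have h2 : e 1 = 0 := by nlinarith [sq_nonneg (e 0), sq_nonneg (e 1)]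
    ext i
    fin_cases i
    · exact h1
    · exact h2
  have huw : cr e ((1 / (e 0 ^ 2 + e 1 ^ 2)) • !₂[-e 1, e 0]) = 1 := by
    rw [cr_smul_right]
    simp only [cr]
    simp
    field_simp
  exact frame C hC hk hpos e _ huw Λ H hΛ hH h

end Pool.Agent.Results.MP_49888f_co.NearParallelogram
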